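import Pool.Agent.LeoC.CountStmts

/-!
# LEOC, module ROR: real forms, coordinates of vectors
-/

set_option autoImplicit false

open Pool.Agent.LeoK Pool.Agent.LeoG Pool.Agent.LeoC

namespace Pool.Agent.LeoC.H39

theorem mm_th (u : Fin 4 → ℝ) : mm (th u) = 27 * dt u ^ 6 := by
  simp only [mm, dsc, th, dt, Matrix.cons_val]
  ring

theorem gval_th (u : Fin 4 → ℝ) (X Y : ℝ) :
    gval (th u) X Y = (u 0 * X + u 1 * Y) ^ 3 + (u 2 * X + u 3 * Y) ^ 3 := by
  simp only [gval, th, Matrix.cons_val]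
  ring

theorem th_cast (u : Fin 4 → ℝ) : (fun i => ((th u i : ℝ) : ℂ)) = tc fun i => (u i : ℂ) := by
  funext i
  fin_cases i <;> simp [th, tc]

/-- the fourth root of the discriminant -/
theorem root4 {m : ℝ} (hm : 0 ≤ m) : (m ^ (1 / 4 : ℝ)) ^ 4 = m := by
  rw [← Real.rpow_natCast, ← Real.rpow_mul hm]
  norm_num

/-- comparison of the fourth root of `m` with a cube -/
theorem root4_le {m s C : ℝ} (hs : 0 ≤ s) (hC : 0 ≤ C) (h : |m| ≤ C ^ 4 * s ^ 12) :
    |m| ^ (1 / 4 : ℝ) ≤ C * s ^ 3 := by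
  have h1 : (|m| ^ (1 / 4 : ℝ)) ^ 4 = |m| := root4 (abs_nonneg m)
  have h2 : (|m| ^ (1 / 4 : ℝ)) ^ 4 ≤ (C * s ^ 3) ^ 4 := by
    rw [h1]
    refine h.trans_eq ?_
    ring
  exact le_of_pow_le_pow_left₀ (by norm_num) (by positivity) h2

theorem ror_pos (h1 : TcuStmt) {u : Fin 4 → ℝ} (hu : 0 < dt u) :
    ∃ z₁ z₂ : ℂ, |(starRingEnd ℂ z₁ * z₂).im| = 1 / 2 ∧
    ∀ X Y : ℝ, ‖(X : ℂ) * z₁ + (Y : ℂ) * z₂‖ ^ 2 = hc (fun i => (th u i : ℂ)) X Y ∧
      |mm (th u)| ^ (1 / 4 : ℝ) * |((X : ℂ) * z₁ + (Y : ℂ) * z₂).re ^ 3 +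
        ((X : ℂ) * z₁ + (Y : ℂ) * z₂).im ^ 3| ≤ 2 * |gval (th u) X Y| := by
  set s : ℝ := Real.sqrt (2 * dt u) with hs
  have hs0 : 0 < s := Real.sqrt_pos.2 (by linarith)
  have hs2 : s ^ 2 = 2 * dt u := Real.sq_sqrt (by linarith)
  refine ⟨⟨u 0 / s, u 2 / s⟩, ⟨u 1 / s, u 3 / s⟩, ?_, ?_⟩
  · have : (starRingEnd ℂ (⟨u 0 / s, u 2 / s⟩ : ℂ) * ⟨u 1 / s, u 3 / s⟩).im = dt u / s ^ 2 := by
      simp only [Complex.mul_im, Complex.conj_re, Complex.conj_im, dt]
      field_simp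
      ring
    rw [this, hs2, abs_of_pos (by positivity)]
    field_simp
  · intro X Y
    have hre : ((X : ℂ) * ⟨u 0 / s, u 2 / s⟩ + (Y : ℂ) * ⟨u 1 / s, u 3 / s⟩).re =
        (u 0 * X + u 1 * Y) / s := by
      simp only [Complex.add_re, Complex.mul_re, Complex.ofReal_re, Complex.ofReal_im]
      ring
    have him : ((X : ℂ) * ⟨u 0 / s, u 2 / s⟩ + (Y : ℂ) * ⟨u 1 / s, u 3 / s⟩).im =
        (u 2 * X + u 3 * Y) / s := by
      simp only [Complex.add_im, Complex.mul_im, Complex.ofReal_re, Complex.ofReal_im]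
      ring
    constructor
    · have hdc : dc (fun i => (u i : ℂ)) = (dt u : ℂ) := by
        simp only [dc, dt]
        push_cast
        ring
      obtain ⟨-, -, h2⟩ := h1 fun i => (u i : ℂ)
      rw [th_cast, h2 (by rw [hdc]; exact_mod_cast hu.ne') X Y, hdc]
      have e1 : (u 0 : ℂ) * X + (u 1 : ℂ) * Y = ((u 0 * X + u 1 * Y : ℝ) : ℂ) := by push_cast; ring
      have e2 : (u 2 : ℂ) * X + (u 3 : ℂ) * Y = ((u 2 * X + u 3 * Y : ℝ) : ℂ) := by push_cast; ring
      rw [e1, e2, Complex.norm_real, Complex.norm_real, Complex.norm_real, Real.norm_eq_abs,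
        Real.norm_eq_abs, Real.norm_eq_abs, sq_abs, sq_abs, abs_of_pos hu, ← Complex.normSq_eq_norm_sq,
        Complex.normSq_apply, hre, him, ← hs2]
      field_simp
    · rw [hre, him]
      have e3 : ((u 0 * X + u 1 * Y) / s) ^ 3 + ((u 2 * X + u 3 * Y) / s) ^ 3 =
          gval (th u) X Y / s ^ 3 := by
        rw [gval_th]
        field_simp
      rw [e3, abs_div, abs_of_pos (show 0 < s ^ 3 by positivity)]
      have h3 : |mm (th u)| ^ (1 / 4 : ℝ) ≤ 1 * s ^ 3 := by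
        apply root4_le hs0.le zero_le_one
        rw [mm_th, abs_of_pos (by positivity), show s ^ 12 = (s ^ 2) ^ 6 by ring, hs2]
        have : 0 < dt u ^ 6 := by positivity
        nlinarith
      rw [one_mul] at h3
      have h4 : 0 ≤ |gval (th u) X Y| := abs_nonneg _
      rw [mul_div_assoc', div_le_iff₀ (by positivity)]
      have h5 : 0 < s ^ 3 := by positivity
      nlinarith [mul_le_mul_of_nonneg_right h3 h4]

theorem ror_neg (h1 : TcuStmt) {v : Q4 ℝ} {p q : ℂ} (hpq : 0 < (p * starRingEnd ℂ q).im)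
    (hv : tc ![p, q, starRingEnd ℂ p, starRingEnd ℂ q] = fun i => (v i : ℂ)) :
    ∃ z₁ z₂ : ℂ, |(starRingEnd ℂ z₁ * z₂).im| = 1 / 2 ∧
    ∀ X Y : ℝ, ‖(X : ℂ) * z₁ + (Y : ℂ) * z₂‖ ^ 2 = hc (fun i => (v i : ℂ)) X Y ∧
      |mm v| ^ (1 / 4 : ℝ) * |(((X : ℂ) * z₁ + (Y : ℂ) * z₂) ^ 3).im| ≤ 2 * |gval v X Y| := by
  obtain ⟨h2, h3, h4⟩ := h1 ![p, q, starRingEnd ℂ p, starRingEnd ℂ q]
  set d : ℝ := (p * starRingEnd ℂ q).im with hd
  have hdc : dc ![p, q, starRingEnd ℂ p, starRingEnd ℂ q] = 2 * (d : ℂ) * Complex.I := by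
    simp only [dc, Matrix.cons_val]
    apply Complex.ext
    · simp [hd]
      ring
    · simp [hd]
      ring
  set s : ℝ := Real.sqrt (2 * d) with hs
  have hs0 : 0 < s := Real.sqrt_pos.2 (by linarith)
  have hs2 : s ^ 2 = 2 * d := Real.sq_sqrt (by linarith)
  have hsC : (s : ℂ) ≠ 0 := by exact_mod_cast hs0.ne'
  refine ⟨Complex.I * p / s, Complex.I * q / s, ?_, ?_⟩
  · have : starRingEnd ℂ (Complex.I * p / s) * (Complex.I * q / s) =
        ((1 / s ^ 2 : ℝ) : ℂ) * (starRingEnd ℂ p * q) := by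
      rw [map_div₀, map_mul, Complex.conj_I, Complex.conj_ofReal]
      push_cast
      field_simp
      linear_combination (-starRingEnd ℂ p * q) * Complex.I_sq
    have e : (starRingEnd ℂ p * q).im = -d := by
      simp [hd]
      ring
    rw [this, Complex.im_ofReal_mul, e, hs2, mul_neg, abs_neg, abs_of_pos (by positivity)]
    field_simp
  · intro X Y
    set l : ℂ := p * X + q * Y with hl
    have hz : (X : ℂ) * (Complex.I * p / s) + (Y : ℂ) * (Complex.I * q / s) =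
        Complex.I * l / s := by
      rw [hl]
      field_simp
    have hcl : starRingEnd ℂ p * X + starRingEnd ℂ q * Y = starRingEnd ℂ l := by
      rw [hl, map_add, map_mul, map_mul, Complex.conj_ofReal, Complex.conj_ofReal]
    have hnd : ‖dc ![p, q, starRingEnd ℂ p, starRingEnd ℂ q]‖ = s ^ 2 := by
      rw [hdc, norm_mul, norm_mul, Complex.norm_I, Complex.norm_real, Real.norm_eq_abs,
        abs_of_pos hpq, hs2]
      simp
    constructor
    · rw [← hv, h4 (by rw [← norm_ne_zero_iff, hnd]; positivity) X Y, hz, hnd]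
      simp only [Matrix.cons_val]
      rw [hcl, ← hl, RCLike.norm_conj, norm_div, norm_mul, Complex.norm_I, one_mul,
        Complex.norm_real, Real.norm_eq_abs, abs_of_pos hs0]
      field_simp
      ring
    · have hg : gval v X Y = 2 * (l ^ 3).re := by
        have e1 := h3 X Y
        rw [hv] at e1
        simp only [Matrix.cons_val] at e1
        rw [hcl, ← hl, ← map_pow] at e1
        have e2 : gval (fun i => (v i : ℂ)) (X : ℂ) (Y : ℂ) = ((gval v X Y : ℝ) : ℂ) := by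
          simp only [gval]
          push_cast
          ring
        rw [e2, Complex.add_conj] at e1
        exact_mod_cast e1
      have him : (((X : ℂ) * (Complex.I * p / s) + (Y : ℂ) * (Complex.I * q / s)) ^ 3).im =
          -(gval v X Y / (2 * s ^ 3)) := by
        rw [hz, hg]
        have e3 : (Complex.I * l / s) ^ 3 = ((1 / s ^ 3 : ℝ) : ℂ) * (-(Complex.I * l ^ 3)) := by
          push_cast
          rw [div_pow, mul_pow, Complex.I_pow_three]
          field_simp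
        rw [e3, Complex.im_ofReal_mul, Complex.neg_im, Complex.I_mul_im]
        field_simp
      have hm : mm v = -(27 * 64 * d ^ 6) := by
        have e1 := h2
        rw [hv, hdc] at e1
        have e2 : mm (fun i => (v i : ℂ)) = ((mm v : ℝ) : ℂ) := by
          simp only [mm, dsc]
          push_cast
          ring
        have e4 : (27 : ℂ) * (2 * (d : ℂ) * Complex.I) ^ 6 = ((-(27 * 64 * d ^ 6) : ℝ) : ℂ) := by
          have e5 : Complex.I ^ 6 = -1 := by
            rw [show (6 : ℕ) = 2 * 3 by norm_num, pow_mul, Complex.I_sq]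
            norm_num
          rw [mul_pow, e5]
          push_cast
          ring
        rw [e2, e4] at e1
        exact_mod_cast e1
      have h5 : |mm v| ^ (1 / 4 : ℝ) ≤ 4 * s ^ 3 := by
        apply root4_le hs0.le (by norm_num)
        rw [hm, abs_neg, abs_of_pos (by positivity), show s ^ 12 = (s ^ 2) ^ 6 by ring, hs2]
        have : 0 < d ^ 6 := by positivity
        nlinarith
      rw [him, abs_neg, abs_div, abs_of_pos (show 0 < 2 * s ^ 3 by positivity), mul_div_assoc',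
        div_le_iff₀ (by positivity)]
      have h6 := mul_le_mul_of_nonneg_right h5 (abs_nonneg (gval v X Y))
      linarith

theorem ror (h1 : TcuStmt) (h2 : TcbStmt) : RorStmt := by
  intro v hv
  obtain ⟨-, -, h3, h4, -⟩ := h2
  rcases lt_or_gt_of_ne hv with h | h
  · obtain ⟨p, q, hpq, hv⟩ := h4 v h
    obtain ⟨z₁, z₂, h5, h6⟩ := ror_neg h1 hpq hv
    exact ⟨z₁, z₂, h5, fun X Y => ⟨(h6 X Y).1, fun h' => absurd h (not_lt.2 h'.le),
      fun _ => (h6 X Y).2⟩⟩
  · obtain ⟨u, hu, rfl⟩ := h3 v h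
    obtain ⟨z₁, z₂, h5, h6⟩ := ror_pos h1 hu
    exact ⟨z₁, z₂, h5, fun X Y => ⟨(h6 X Y).1, fun _ => (h6 X Y).2,
      fun h' => absurd h (not_lt.2 h'.le)⟩⟩

end Pool.Agent.LeoC.H39
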